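import Mathlib

namespace Pool.Agent.Results.MP_f91e62_co.LowerBound

open Finset Classical

/-- `e` is an edge of the complete `k`-partite `k`-graph with parts `X 0, …, X (k - 1)`. -/
def IsEdge {n k : ℕ} (X : Fin k → Finset (Fin n)) (e : Finset (Fin n)) : Prop :=
  ∃ x : Fin k → Fin n, (∀ j, x j ∈ X j) ∧ e = univ.image x

/-- The complete `k`-partite `k`-graphs with parts `X i 0, …, X i (k - 1)`, `i < m`, form a
`k`-partite covering of order `l` of the complete `k`-graph on `n` vertices. -/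
def IsCovering (n k l m : ℕ) (X : Fin m → Fin k → Finset (Fin n)) : Prop :=
  (∀ i j, (X i j).Nonempty) ∧ (∀ i j j', j ≠ j' → Disjoint (X i j) (X i j')) ∧
    ∀ e : Finset (Fin n), e.card = k →
      1 ≤ (univ.filter (fun i => IsEdge (X i) e)).card ∧
        (univ.filter (fun i => IsEdge (X i) e)).card ≤ l

section
variable {n k : ℕ} {X : Fin k → Finset (Fin n)}

/-- `A` is a transversal of the parts with index in `S`. -/
def Tr (X : Fin k → Finset (Fin n)) (S : Finset (Fin k)) (A : Finset (Fin n)) : Prop :=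
  ∃ x : Fin k → Fin n, (∀ j ∈ S, x j ∈ X j) ∧ A = S.image x

lemma tr_sub (hX : ∀ j j', j ≠ j' → Disjoint (X j) (X j')) {S S' : Finset (Fin k)}
    {A : Finset (Fin n)} (h : Tr X S A) (h' : Tr X S' A) : S ⊆ S' := by
  obtain ⟨x, hx, hA⟩ := h
  obtain ⟨x', hx', hA'⟩ := h'
  intro j hj
  have h1 : x j ∈ A := by rw [hA]; exact Finset.mem_image_of_mem _ hj
  rw [hA', Finset.mem_image] at h1
  obtain ⟨j', hj', he⟩ := h1
  by_contra hne
  have hjj : j ≠ j' := fun h => hne (h ▸ hj')
  exact Finset.disjoint_left.1 (hX j j' hjj) (hx j hj) (he ▸ hx' j' hj')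

lemma tr_unique (hX : ∀ j j', j ≠ j' → Disjoint (X j) (X j')) {S S' : Finset (Fin k)}
    {A : Finset (Fin n)} (h : Tr X S A) (h' : Tr X S' A) : S = S' :=
  Finset.Subset.antisymm (tr_sub hX h h') (tr_sub hX h' h)

lemma tr_disj (hX : ∀ j j', j ≠ j' → Disjoint (X j) (X j')) {S : Finset (Fin k)}
    {A B : Finset (Fin n)} (h : Tr X S A) (h' : Tr X Sᶜ B) : Disjoint A B := by
  obtain ⟨x, hx, hA⟩ := h
  obtain ⟨x', hx', hB⟩ := h'
  rw [Finset.disjoint_left]
  intro z hz hz'
  rw [hA, Finset.mem_image] at hz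
  rw [hB, Finset.mem_image] at hz'
  obtain ⟨j, hj, rfl⟩ := hz
  obtain ⟨j', hj', he⟩ := hz'
  have hjj : j ≠ j' := by
    rintro rfl
    exact (Finset.mem_compl.1 hj') hj
  exact Finset.disjoint_left.1 (hX j j' hjj) (hx j hj) (he ▸ hx' j' hj')

lemma edge_iff {A B : Finset (Fin n)} (hAB : Disjoint A B) :
    IsEdge X (A ∪ B) ↔ ∃ S, Tr X S A ∧ Tr X Sᶜ B := by
  constructor
  · rintro ⟨x, hx, he⟩
    refine ⟨univ.filter (fun j => x j ∈ A), ⟨x, fun j _ => hx j, ?_⟩,
      ⟨x, fun j _ => hx j, ?_⟩⟩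
    · ext z
      rw [Finset.mem_image]
      constructor
      · intro hz
        have h1 : z ∈ A ∪ B := Finset.mem_union_left _ hz
        rw [he, Finset.mem_image] at h1
        obtain ⟨j, _, rfl⟩ := h1
        exact ⟨j, by simpa using hz, rfl⟩
      · rintro ⟨j, hj, rfl⟩
        simpa using hj
    · ext z
      rw [Finset.mem_image]
      constructor
      · intro hz
        have h1 : z ∈ A ∪ B := Finset.mem_union_right _ hz
        rw [he, Finset.mem_image] at h1
        obtain ⟨j, _, rfl⟩ := h1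
        refine ⟨j, ?_, rfl⟩
        rw [Finset.mem_compl, Finset.mem_filter]
        rintro ⟨_, h2⟩
        exact Finset.disjoint_left.1 hAB h2 hz
      · rintro ⟨j, hj, rfl⟩
        rw [Finset.mem_compl, Finset.mem_filter] at hj
        have h1 : x j ∈ A ∪ B := by rw [he]; exact Finset.mem_image_of_mem _ (mem_univ j)
        rcases Finset.mem_union.1 h1 with h2 | h2
        · exact absurd ⟨mem_univ j, h2⟩ hj
        · exact h2
  · rintro ⟨S, ⟨x, hx, hA⟩, ⟨x', hx', hB⟩⟩
    refine ⟨fun j => if j ∈ S then x j else x' j, ?_, ?_⟩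
    · intro j
      by_cases hj : j ∈ S
      · simp only [hj, if_true]; exact hx j hj
      · simp only [hj, if_false]; exact hx' j (Finset.mem_compl.2 hj)
    · ext z
      rw [Finset.mem_union, Finset.mem_image, hA, hB, Finset.mem_image, Finset.mem_image]
      constructor
      · rintro (⟨j, hj, rfl⟩ | ⟨j, hj, rfl⟩)
        · exact ⟨j, mem_univ _, by simp [hj]⟩
        · exact ⟨j, mem_univ _, by simp [Finset.mem_compl.1 hj]⟩
      · rintro ⟨j, _, rfl⟩
        by_cases hj : j ∈ S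
        · left; exact ⟨j, hj, by simp [hj]⟩
        · right; exact ⟨j, Finset.mem_compl.2 hj, by simp [hj]⟩

lemma sum_tr (hX : ∀ j j', j ≠ j' → Disjoint (X j) (X j')) (A B : Finset (Fin n)) :
    ∑ S : Finset (Fin k), (if Tr X S A then (1 : ℝ) else 0) * (if Tr X Sᶜ B then 1 else 0) =
      if Disjoint A B ∧ IsEdge X (A ∪ B) then 1 else 0 := by
  by_cases h : ∃ S, Tr X S A ∧ Tr X Sᶜ B
  · obtain ⟨S, h1, h2⟩ := h
    have hd := tr_disj hX h1 h2
    rw [if_pos ⟨hd, (edge_iff hd).2 ⟨S, h1, h2⟩⟩, Finset.sum_eq_single S]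
    · simp [h1, h2]
    · intro S' _ hne
      have : ¬ Tr X S' A := fun h3 => hne (tr_unique hX h3 h1)
      simp [this]
    · intro h3; exact absurd (mem_univ S) h3
  · rw [if_neg (fun h1 => h ((edge_iff h1.1).1 h1.2))]
    apply Finset.sum_eq_zero
    intro S _
    by_cases h1 : Tr X S A
    · have : ¬ Tr X Sᶜ B := fun h2 => h ⟨S, h1, h2⟩
      simp [this]
    · simp [h1]

end

lemma card_le_of_mul_eq_one {α β : Type*} [Fintype α] [Fintype β] [DecidableEq α]
    (A : Matrix α β ℝ) (B : Matrix β α ℝ) (h : A * B = 1) :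
    Fintype.card α ≤ Fintype.card β := by
  have h1 : (A * B).rank = Fintype.card α := by rw [h]; exact Matrix.rank_one
  rw [← h1]
  exact (Matrix.rank_mul_le_left A B).trans (Matrix.rank_le_card_width A)

/-- The tensor power of `J - I` is invertible. -/
lemma inv_tensor {s q : ℕ} (hq : 2 ≤ q) :
    (Matrix.of fun (a b : Fin s → Fin q) => ∏ j, (if a j ≠ b j then (1 : ℝ) else 0)) *
      (Matrix.of fun (b c : Fin s → Fin q) =>
        ∏ j, (1 / ((q : ℝ) - 1) - (if b j = c j then (1 : ℝ) else 0))) = 1 := by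
  have hq1 : (q : ℝ) - 1 ≠ 0 := by
    have : (2 : ℝ) ≤ q := by exact_mod_cast hq
    intro h; linarith
  ext a c
  rw [Matrix.mul_apply]
  simp only [Matrix.of_apply]
  simp_rw [← Finset.prod_mul_distrib]
  have e := Finset.prod_univ_sum (fun _ : Fin s => (univ : Finset (Fin q)))
    (fun j y => (if a j ≠ y then (1 : ℝ) else 0) *
      (1 / ((q : ℝ) - 1) - (if y = c j then (1 : ℝ) else 0)))
  rw [Fintype.piFinset_univ] at e
  rw [← e]
  have hone : ∀ j : Fin s, ∑ y : Fin q, (if a j ≠ y then (1 : ℝ) else 0) *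
      (1 / ((q : ℝ) - 1) - (if y = c j then (1 : ℝ) else 0)) = if a j = c j then 1 else 0 := by
    intro j
    have h1 : ∑ y : Fin q, (if a j ≠ y then (1 : ℝ) else 0) *
        (1 / ((q : ℝ) - 1) - (if y = c j then (1 : ℝ) else 0)) =
        (∑ y : Fin q, (if a j ≠ y then (1 : ℝ) else 0)) * (1 / ((q : ℝ) - 1)) -
          ∑ y : Fin q, (if y = c j then (if a j ≠ y then (1 : ℝ) else 0) else 0) := by
      rw [Finset.sum_mul, ← Finset.sum_sub_distrib]
      refine Finset.sum_congr rfl fun y _ => ?_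
      by_cases h2 : y = c j
      · subst h2
        by_cases h3 : a j = c j <;> simp [h3]
      · by_cases h3 : a j = y <;> simp [h2, h3]
    have h2 : ∑ y : Fin q, (if a j ≠ y then (1 : ℝ) else 0) = (q : ℝ) - 1 := by
      have h3 : ∀ y : Fin q, (if a j ≠ y then (1 : ℝ) else 0) =
          1 - (if a j = y then (1 : ℝ) else 0) := by
        intro y; by_cases h : a j = y <;> simp [h]
      simp_rw [h3]
      rw [Finset.sum_sub_distrib]
      simp
    rw [h1, h2, mul_one_div_cancel hq1, Finset.sum_ite_eq' univ (c j)]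
    by_cases h : a j = c j <;> simp [h]
  rw [Finset.prod_congr rfl (fun j _ => hone j), Matrix.one_apply]
  by_cases h : a = c
  · subst h; simp
  · rw [if_neg h]
    obtain ⟨j, hj⟩ := Function.ne_iff.1 h
    exact Finset.prod_eq_zero (mem_univ j) (by simp [hj])

/-- Rank inequality. -/
lemma key {n k l m s q : ℕ} (hq : 2 ≤ q) (X : Fin m → Fin k → Finset (Fin n))
    (hX : IsCovering n k l m X) (F0 : Finset (Fin n)) (ι : Fin s × Fin q → Fin n)
    (hι : Function.Injective ι) (hF0 : ∀ p, ι p ∉ F0) (hcard : F0.card + 2 * s = k) :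
    q ^ s ≤ (m * 2 ^ k + 1) ^ l + 1 := by
  obtain ⟨_, hdis, hcov⟩ := hX
  set A : (Fin s → Fin q) → Finset (Fin n) := fun b => univ.image (fun j => ι (j, b j)) with hA
  have hAcard : ∀ b, (A b).card = s := by
    intro b
    rw [hA]
    simp only
    rw [Finset.card_image_of_injective, Finset.card_univ, Fintype.card_fin]
    intro i j hij
    exact congrArg Prod.fst (hι hij)
  have hAF : ∀ b, Disjoint (A b) F0 := by
    intro b
    rw [Finset.disjoint_left]
    intro z hz
    rw [hA, Finset.mem_image] at hz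
    obtain ⟨j, _, rfl⟩ := hz
    exact hF0 _
  have hdisj : ∀ a b, Disjoint (A a ∪ F0) (A b) ↔ ∀ j, a j ≠ b j := by
    intro a b
    rw [Finset.disjoint_union_left]
    constructor
    · rintro ⟨h, _⟩ j hj
      have h1 : ι (j, a j) ∈ A a := Finset.mem_image_of_mem (fun j => ι (j, a j)) (mem_univ j)
      have h2 : ι (j, a j) ∈ A b := by
        rw [hj]
        exact Finset.mem_image_of_mem (fun j => ι (j, b j)) (mem_univ j)
      exact Finset.disjoint_left.1 h h1 h2
    · intro h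
      refine ⟨?_, (hAF b).symm⟩
      rw [Finset.disjoint_left]
      intro z hz hz'
      rw [hA, Finset.mem_image] at hz hz'
      obtain ⟨j, _, rfl⟩ := hz
      obtain ⟨j', _, he⟩ := hz'
      have h1 := hι he
      have h2 : j' = j := congrArg Prod.fst h1
      subst h2
      exact h j' (congrArg Prod.snd h1).symm
  set N : (Fin s → Fin q) → (Fin s → Fin q) → ℕ := fun a b =>
    (univ.filter (fun i => Disjoint (A a ∪ F0) (A b) ∧ IsEdge (X i) (A a ∪ F0 ∪ A b))).card with hN
  have hN0 : ∀ a b, (¬ ∀ j, a j ≠ b j) → N a b = 0 := by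
    intro a b h
    rw [hN]
    simp only
    rw [Finset.card_eq_zero, Finset.filter_eq_empty_iff]
    rintro i _ ⟨h1, _⟩
    exact h ((hdisj a b).1 h1)
  have hN1 : ∀ a b, (∀ j, a j ≠ b j) → 1 ≤ N a b ∧ N a b ≤ l := by
    intro a b h
    have h1 := (hdisj a b).2 h
    have h2 : (A a ∪ F0 ∪ A b).card = k := by
      rw [Finset.card_union_of_disjoint h1, Finset.card_union_of_disjoint (hAF a), hAcard,
        hAcard]
      omega
    have h3 := hcov _ h2
    rw [hN]
    simp only [h1, true_and]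
    exact h3
  set u : Option (Fin m × Finset (Fin k)) → (Fin s → Fin q) → ℝ := fun ρ a =>
    match ρ with
    | none => 1
    | some p => if Tr (X p.1) p.2 (A a ∪ F0) then 1 else 0 with hu
  set w : Fin l → Option (Fin m × Finset (Fin k)) → (Fin s → Fin q) → ℝ := fun t ρ b =>
    match ρ with
    | none => 1
    | some p => -((if Tr (X p.1) p.2ᶜ (A b) then 1 else 0) / ((t : ℝ) + 1)) with hw
  have hsum : ∀ (t : Fin l) a b, ∑ ρ, u ρ a * w t ρ b = 1 - (N a b : ℝ) / ((t : ℝ) + 1) := by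
    intro t a b
    rw [Fintype.sum_option, Fintype.sum_prod_type]
    have h1 : ∀ i : Fin m, ∑ S : Finset (Fin k), u (some (i, S)) a * w t (some (i, S)) b =
        -((if Disjoint (A a ∪ F0) (A b) ∧ IsEdge (X i) (A a ∪ F0 ∪ A b) then (1 : ℝ) else 0) /
          ((t : ℝ) + 1)) := by
      intro i
      rw [← sum_tr (hdis i) (A a ∪ F0) (A b), Finset.sum_div, ← Finset.sum_neg_distrib]
      refine Finset.sum_congr rfl fun S _ => ?_
      rw [hu, hw]
      simp only
      ring
    rw [Finset.sum_congr rfl (fun i _ => h1 i), Finset.sum_neg_distrib, ← Finset.sum_div,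
      Finset.sum_boole]
    rw [hu, hw, hN]
    simp only
    ring
  have hD : ∀ a b, 1 - ∏ t : Fin l, (1 - (N a b : ℝ) / ((t : ℝ) + 1)) =
      ∏ j, (if a j ≠ b j then (1 : ℝ) else 0) := by
    intro a b
    by_cases h : ∀ j, a j ≠ b j
    · obtain ⟨h1, h2⟩ := hN1 a b h
      have h3 : ∏ t : Fin l, (1 - (N a b : ℝ) / ((t : ℝ) + 1)) = 0 := by
        refine Finset.prod_eq_zero (mem_univ (⟨N a b - 1, by omega⟩ : Fin l)) ?_
        have h4 : (((N a b - 1 : ℕ) : ℝ) + 1) = N a b := by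
          have : ((N a b - 1 + 1 : ℕ) : ℝ) = (N a b : ℝ) := by
            congr 1; omega
          push_cast at this
          exact this
        simp only
        rw [h4, div_self, sub_self]
        have : (0 : ℝ) < N a b := by exact_mod_cast h1
        exact this.ne'
      rw [h3, sub_zero]
      symm
      apply Finset.prod_eq_one
      intro j _
      simp [h j]
    · rw [hN0 a b h]
      simp only [Nat.cast_zero, zero_div, sub_zero, Finset.prod_const_one, sub_self]
      push Not at h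
      obtain ⟨j, hj⟩ := h
      symm
      exact Finset.prod_eq_zero (mem_univ j) (by simp [hj])
  set U : Matrix (Fin s → Fin q) (Option (Fin l → Option (Fin m × Finset (Fin k)))) ℝ :=
    Matrix.of fun a x => match x with
      | none => 1
      | some φ => -∏ t, u (φ t) a with hU
  set W : Matrix (Option (Fin l → Option (Fin m × Finset (Fin k)))) (Fin s → Fin q) ℝ :=
    Matrix.of fun x b => match x with
      | none => 1
      | some φ => ∏ t, w t (φ t) b with hW
  have hUW : U * W =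
      Matrix.of fun (a b : Fin s → Fin q) => ∏ j, (if a j ≠ b j then (1 : ℝ) else 0) := by
    ext a b
    rw [Matrix.mul_apply, Fintype.sum_option, Matrix.of_apply, ← hD a b]
    have e := Finset.prod_univ_sum (fun _ : Fin l => (univ : Finset (Option (Fin m × Finset (Fin k)))))
      (fun t ρ => u ρ a * w t ρ b)
    rw [Fintype.piFinset_univ] at e
    rw [Finset.prod_congr rfl (fun t _ => (hsum t a b).symm), e]
    rw [hU, hW]
    simp only [Matrix.of_apply]
    rw [mul_one, sub_eq_add_neg, ← Finset.sum_neg_distrib]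
    congr 1
    refine Finset.sum_congr rfl fun φ _ => ?_
    rw [Finset.prod_mul_distrib]
    ring
  have hinv := inv_tensor (s := s) hq
  rw [← hUW, Matrix.mul_assoc] at hinv
  have hfin := card_le_of_mul_eq_one _ _ hinv
  simpa [Fintype.card_option, Fintype.card_finset] using hfin

/-- Combinatorial form of the bound. -/
lemma comb {n k l m : ℕ} (hk : 2 ≤ k) (hkn : k ≤ n) (X : Fin m → Fin k → Finset (Fin n))
    (hX : IsCovering n k l m X) :
    ((n - 1) / (k / 2)) ^ (k / 2) ≤ (m * 2 ^ k + 1) ^ l + 1 := by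
  obtain ⟨s, hs⟩ : ∃ s, s = k / 2 := ⟨_, rfl⟩
  obtain ⟨q, hq⟩ : ∃ q, q = (n - 1) / s := ⟨_, rfl⟩
  have hs1 : 1 ≤ s := by omega
  rw [← hs, ← hq]
  have hsq : q * s ≤ n - 1 := by rw [hq]; exact Nat.div_mul_le_self _ _
  rcases Nat.lt_or_ge q 2 with h2 | h2
  · have : q ^ s ≤ 1 := Nat.pow_le_one_iff (by omega) |>.2 (by omega)
    omega
  · have hlt : ∀ p : Fin s × Fin q, p.1.val * q + p.2.val < n - 1 := by
      rintro ⟨⟨a, ha⟩, ⟨b, hb⟩⟩
      simp only
      have h3 : (a + 1) * q ≤ s * q := Nat.mul_le_mul_right q ha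
      have h4 : (a + 1) * q = a * q + q := by ring
      have h5 : s * q = q * s := Nat.mul_comm _ _
      omega
    refine key h2 X hX (if k % 2 = 1 then {⟨n - 1, by omega⟩} else ∅)
      (fun p => ⟨p.1.val * q + p.2.val, by have := hlt p; omega⟩) ?_ ?_ ?_
    · rintro ⟨⟨a, ha⟩, ⟨b, hb⟩⟩ ⟨⟨a', ha'⟩, ⟨b', hb'⟩⟩ h
      simp only [Fin.mk.injEq] at h
      have h3 : (a * q + b) / q = a := by
        rw [Nat.mul_comm, Nat.mul_add_div (by omega), Nat.div_eq_of_lt hb, Nat.add_zero]
      have h4 : (a' * q + b') / q = a' := by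
        rw [Nat.mul_comm, Nat.mul_add_div (by omega), Nat.div_eq_of_lt hb', Nat.add_zero]
      have h5 : a = a' := by rw [← h3, ← h4, h]
      subst h5
      have h6 : b = b' := by omega
      subst h6
      rfl
    · intro p hp
      have := hlt p
      split_ifs at hp
      · rw [Finset.mem_singleton, Fin.mk.injEq] at hp
        omega
      · exact absurd hp (Finset.notMem_empty _)
    · split_ifs
      · rw [Finset.card_singleton]; omega
      · rw [Finset.card_empty]; omega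

/-- The lower bound half: for all `k ≥ 2` and `l ≥ 1` every `k`-partite covering of order `l` of the
complete `k`-graph on `n ≥ k` vertices has at least `c n ^ (⌊k / 2⌋ / l)` members. -/
theorem result : ∀ k l : ℕ, 2 ≤ k → 1 ≤ l → ∃ c : ℝ, 0 < c ∧
    ∀ (n m : ℕ) (X : Fin m → Fin k → Finset (Fin n)), k ≤ n → IsCovering n k l m X →
      c * (n : ℝ) ^ (((k / 2 : ℕ) : ℝ) / (l : ℝ)) ≤ (m : ℝ) := by
  intro k l hk hl
  obtain ⟨s, hs⟩ : ∃ s, s = k / 2 := ⟨_, rfl⟩
  have hs1 : 1 ≤ s := by omega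
  have hs1' : (1 : ℝ) ≤ s := by exact_mod_cast hs1
  obtain ⟨K, hK⟩ : ∃ K : ℝ, K = 2 * (2 * (s : ℝ)) ^ s := ⟨_, rfl⟩
  have hK1 : 1 ≤ K := by
    have : (1 : ℝ) ≤ (2 * (s : ℝ)) ^ s := one_le_pow₀ (by linarith)
    rw [hK]; linarith
  have hK0 : 0 < K := by linarith
  refine ⟨1 / (K * 2 ^ (k + 1)), by positivity, ?_⟩
  intro n m X hkn hX
  rw [← hs]
  have hc := comb hk hkn X hX
  rw [← hs] at hc
  obtain ⟨q, hq⟩ : ∃ q, q = (n - 1) / s := ⟨_, rfl⟩
  rw [← hq] at hc
  have hm : 1 ≤ m := by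
    obtain ⟨e, _, he⟩ := Finset.exists_subset_card_eq (s := (univ : Finset (Fin n))) (n := k)
      (by simpa using hkn)
    have h1 := (hX.2.2 e he).1
    have h2 := Finset.card_filter_le (univ : Finset (Fin m)) (fun i => IsEdge (X i) e)
    rw [Finset.card_univ, Fintype.card_fin] at h2
    omega
  have hn : n ≤ 2 * s * q := by
    have h1 : n - 1 < s * (q + 1) := by
      rw [hq]; exact Nat.lt_mul_div_succ _ (by omega)
    have h2 : 1 ≤ q := by
      rw [hq]
      exact (Nat.one_le_div_iff (by omega)).2 (by omega)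
    have h3 : s * 1 ≤ s * q := Nat.mul_le_mul_left s h2
    have h4 : s * (q + 1) = s * q + s * 1 := by ring
    have h5 : 2 * s * q = s * q + s * q := by ring
    omega
  have h1 : (n : ℝ) ^ s ≤ (2 * (s : ℝ)) ^ s * (q : ℝ) ^ s := by
    rw [← mul_pow]
    apply pow_le_pow_left₀ (Nat.cast_nonneg n)
    exact_mod_cast hn
  have h2 : (q : ℝ) ^ s ≤ ((m : ℝ) * 2 ^ k + 1) ^ l + 1 := by exact_mod_cast hc
  have hm' : (1 : ℝ) ≤ m := by exact_mod_cast hm
  have h2k : (1 : ℝ) ≤ 2 ^ k := one_le_pow₀ (by norm_num)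
  have hmk : (1 : ℝ) ≤ (m : ℝ) * 2 ^ k := by nlinarith
  have h3 : ((m : ℝ) * 2 ^ k + 1) ^ l ≤ ((m : ℝ) * 2 ^ (k + 1)) ^ l := by
    apply pow_le_pow_left₀ (by positivity)
    rw [pow_succ]; nlinarith
  have h4 : (1 : ℝ) ≤ ((m : ℝ) * 2 ^ (k + 1)) ^ l := by
    apply one_le_pow₀
    rw [pow_succ]; nlinarith
  have h5 : (n : ℝ) ^ s ≤ K * ((m : ℝ) * 2 ^ (k + 1)) ^ l := by
    have h6 : (0 : ℝ) ≤ (2 * (s : ℝ)) ^ s := by positivity
    calc (n : ℝ) ^ s ≤ (2 * (s : ℝ)) ^ s * (q : ℝ) ^ s := h1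
      _ ≤ (2 * (s : ℝ)) ^ s * (2 * ((m : ℝ) * 2 ^ (k + 1)) ^ l) :=
        mul_le_mul_of_nonneg_left (by linarith) h6
      _ = K * ((m : ℝ) * 2 ^ (k + 1)) ^ l := by rw [hK]; ring
  have h6 : K ≤ K ^ l := le_self_pow₀ hK1 (by omega)
  have h7 : (n : ℝ) ^ s ≤ (K * ((m : ℝ) * 2 ^ (k + 1))) ^ l := by
    rw [mul_pow]
    exact h5.trans (mul_le_mul_of_nonneg_right h6 (by positivity))
  have hl0 : (l : ℝ) ≠ 0 := by
    have : (0 : ℝ) < l := by exact_mod_cast hl
    exact this.ne'
  have h8 : (n : ℝ) ^ ((s : ℝ) / (l : ℝ)) ≤ K * ((m : ℝ) * 2 ^ (k + 1)) := by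
    have h9 : ((n : ℝ) ^ ((s : ℝ) / (l : ℝ))) ^ l ≤ (K * ((m : ℝ) * 2 ^ (k + 1))) ^ l := by
      rw [← Real.rpow_natCast ((n : ℝ) ^ ((s : ℝ) / (l : ℝ))) l,
        ← Real.rpow_mul (Nat.cast_nonneg n), div_mul_cancel₀ _ hl0, Real.rpow_natCast]
      exact h7
    exact le_of_pow_le_pow_left₀ (by omega) (by positivity) h9
  rw [one_div, inv_mul_le_iff₀ (by positivity)]
  calc (n : ℝ) ^ ((s : ℝ) / (l : ℝ)) ≤ K * ((m : ℝ) * 2 ^ (k + 1)) := h8
    _ = K * 2 ^ (k + 1) * m := by ring

end Pool.Agent.Results.MP_f91e62_co.LowerBound
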