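import Mathlib

namespace Pool.Agent.Results.MP_f91e62_co.UpperBound

open Finset Classical

/-- `e` is an edge of the complete `k`-partite `k`-graph with parts `X 0, …, X (k - 1)`. -/
def IsEdge {n k : ℕ} (X : Fin k → Finset (Fin n)) (e : Finset (Fin n)) : Prop :=
  ∃ x : Fin k → Fin n, (∀ j, x j ∈ X j) ∧ e = univ.image x

/-- The complete `k`-partite `k`-graphs with parts `X i 0, …, X i (k - 1)`, `i < m`, form a
`k`-partite covering of order `l` of the complete `k`-graph on `n` vertices. -/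
def IsCovering (n k l m : ℕ) (X : Fin m → Fin k → Finset (Fin n)) : Prop :=
  (∀ i j, (X i j).Nonempty) ∧ (∀ i j j', j ≠ j' → Disjoint (X i j) (X i j')) ∧
    ∀ e : Finset (Fin n), e.card = k →
      1 ≤ (univ.filter (fun i => IsEdge (X i) e)).card ∧
        (univ.filter (fun i => IsEdge (X i) e)).card ≤ l

/-- Alon's parts. -/
def Part {s p : ℕ} (b : Fin s → Fin p) (j : ℕ) (x : Fin p) : Prop :=
  (∀ i : Fin s, 2 * i.val + 1 < j → b i < x) ∧ (∀ i : Fin s, j < 2 * i.val + 1 → x < b i) ∧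
    (∀ i : Fin s, j = 2 * i.val + 1 → x = b i)

lemma part_lt {k s p : ℕ} (hs : s = k / 2) (b : Fin s → Fin p) {j j' : ℕ} (hj : j < j')
    (hj' : j' < k) {x y : Fin p} (hx : Part b j x) (hy : Part b j' y) : x < y := by
  rcases Nat.even_or_odd' j with ⟨i, rfl | rfl⟩
  · have hi : i < s := by omega
    have h1 : x < b ⟨i, hi⟩ := hx.2.1 ⟨i, hi⟩ (by simp)
    rcases Nat.lt_or_ge (2 * i + 1) j' with h | h
    · exact h1.trans (hy.1 ⟨i, hi⟩ h)
    · have h2 : j' = 2 * i + 1 := by omega
      rw [hy.2.2 ⟨i, hi⟩ h2]; exact h1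
  · have hi : i < s := by omega
    rw [hx.2.2 ⟨i, hi⟩ rfl]
    exact hy.1 ⟨i, hi⟩ hj

section
variable {n k s p : ℕ}

/-- pulled back parts -/
noncomputable def Pull (k : ℕ) (g : Fin n → Fin p) (b : Fin s → Fin p) : Fin k → Finset (Fin n) :=
  fun j => univ.filter (fun v => Part b j.val (g v))

lemma pull_disj (hs : s = k / 2) (g : Fin n → Fin p) (b : Fin s → Fin p) (j j' : Fin k)
    (h : j ≠ j') : Disjoint (Pull k g b j) (Pull k g b j') := by
  rw [Finset.disjoint_left]
  intro v hv hv'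
  simp only [Pull, mem_filter, mem_univ, true_and] at hv hv'
  rcases lt_or_gt_of_ne h with h1 | h1
  · exact lt_irrefl _ (part_lt hs b (Fin.lt_def.1 h1) j'.isLt hv hv')
  · exact lt_irrefl _ (part_lt hs b (Fin.lt_def.1 h1) j.isLt hv' hv)

lemma mono (hs : s = k / 2) (g : Fin n → Fin p) (b : Fin s → Fin p) (x : Fin k → Fin n)
    (hx : ∀ j, x j ∈ Pull k g b j) : StrictMono (fun j => g (x j)) := by
  intro j j' h
  have h1 := hx j
  have h2 := hx j'
  simp only [Pull, mem_filter, mem_univ, true_and] at h1 h2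
  exact part_lt hs b (Fin.lt_def.1 h) j'.isLt h1 h2

lemma pull_unique (hs : s = k / 2) (g : Fin n → Fin p) (b b' : Fin s → Fin p)
    (e : Finset (Fin n)) (h : IsEdge (Pull k g b) e) (h' : IsEdge (Pull k g b') e) : b = b' := by
  obtain ⟨x, hx, he⟩ := h
  obtain ⟨x', hx', he'⟩ := h'
  have m1 := mono hs g b x hx
  have m2 := mono hs g b' x' hx'
  have hc : (e.image g).card = k := by
    rw [he, Finset.image_image]
    exact (Finset.card_image_of_injective univ (f := g ∘ x) m1.injective).trans (by simp)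
  have e1 := Finset.orderEmbOfFin_unique hc (f := fun j => g (x j)) (fun j => by
    rw [he]; exact Finset.mem_image_of_mem g (Finset.mem_image_of_mem x (mem_univ j))) m1
  have e2 := Finset.orderEmbOfFin_unique hc (f := fun j => g (x' j)) (fun j => by
    rw [he']; exact Finset.mem_image_of_mem g (Finset.mem_image_of_mem x' (mem_univ j))) m2
  have e3 : (fun j => g (x j)) = fun j => g (x' j) := e1.trans e2.symm
  funext i
  have hi : 2 * i.val + 1 < k := by
    have := i.isLt; omega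
  have h1 := hx ⟨2 * i.val + 1, hi⟩
  have h2 := hx' ⟨2 * i.val + 1, hi⟩
  simp only [Pull, mem_filter, mem_univ, true_and] at h1 h2
  rw [← h1.2.2 i rfl, ← h2.2.2 i rfl]
  exact congrFun e3 ⟨2 * i.val + 1, hi⟩

lemma pull_exists (hs : s = k / 2) (g : Fin n → Fin p) (e : Finset (Fin n)) (he : e.card = k)
    (hg : Set.InjOn g e) : ∃ b : Fin s → Fin p, IsEdge (Pull k g b) e := by
  have hc : (e.image g).card = k := by rw [Finset.card_image_of_injOn hg, he]
  have hy : ∀ j : Fin k, ∃ v ∈ e, g v = (e.image g).orderEmbOfFin hc j := by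
    intro j
    exact Finset.mem_image.1 (Finset.orderEmbOfFin_mem _ hc j)
  choose x hxe hxg using hy
  have hlt : ∀ j j' : Fin k, j < j' → g (x j) < g (x j') := by
    intro j j' h
    rw [hxg, hxg]
    exact ((e.image g).orderEmbOfFin hc).strictMono h
  refine ⟨fun i => g (x ⟨2 * i.val + 1, by have := i.isLt; omega⟩), x, ?_, ?_⟩
  · intro j
    simp only [Pull, mem_filter, mem_univ, true_and]
    refine ⟨fun i hi => hlt _ _ (Fin.lt_def.2 hi), fun i hi => hlt _ _ (Fin.lt_def.2 hi),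
      fun i hi => ?_⟩
    have h1 : j = ⟨2 * i.val + 1, by have := i.isLt; omega⟩ := Fin.ext hi
    exact congrArg (fun z => g (x z)) h1
  · symm
    apply Finset.eq_of_subset_of_card_le
    · intro v hv
      rw [Finset.mem_image] at hv
      obtain ⟨j, _, rfl⟩ := hv
      exact hxe j
    · have hinj : Function.Injective x := by
        intro j j' h
        by_contra hne
        rcases lt_or_gt_of_ne hne with h1 | h1
        · exact (hlt _ _ h1).ne (by rw [h])
        · exact (hlt _ _ h1).ne (by rw [h])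
      rw [Finset.card_image_of_injective _ hinj, he]
      simp

end

/-- Assembly: a separating family of maps gives a covering. -/
lemma assemble {n k s p c : ℕ} (hs : s = k / 2) (g : Fin c → Fin n → Fin p)
    (hg : ∀ e : Finset (Fin n), e.card = k → ∃ j, Set.InjOn (g j) e) :
    ∃ (m : ℕ) (X : Fin m → Fin k → Finset (Fin n)), IsCovering n k c m X ∧ m ≤ c * p ^ s := by
  obtain ⟨T, hT⟩ : ∃ T : Finset (Fin c × (Fin s → Fin p)),
      ∀ t, t ∈ T ↔ ∀ j, (Pull k (g t.1) t.2 j).Nonempty :=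
    ⟨univ.filter (fun t => ∀ j, (Pull k (g t.1) t.2 j).Nonempty), fun t => by simp⟩
  have hTc : T.card ≤ c * p ^ s := by
    refine (Finset.card_le_univ T).trans ?_
    simp
  refine ⟨T.card, fun i => Pull k (g (T.equivFin.symm i).1.1) (T.equivFin.symm i).1.2,
    ⟨?_, ?_, ?_⟩, hTc⟩
  · intro i j
    exact (hT _).1 (T.equivFin.symm i).2 j
  · intro i j j' h
    exact pull_disj hs _ _ j j' h
  · intro e he
    constructor
    · obtain ⟨j, hj⟩ := hg e he
      obtain ⟨b, hb⟩ := pull_exists hs (g j) e he hj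
      have hmem : (j, b) ∈ T := by
        rw [hT]
        intro j'
        obtain ⟨x, hx, _⟩ := hb
        exact ⟨x j', hx j'⟩
      rw [Nat.one_le_iff_ne_zero, ← Nat.pos_iff_ne_zero, Finset.card_pos]
      refine ⟨T.equivFin ⟨(j, b), hmem⟩, ?_⟩
      rw [mem_filter]
      refine ⟨mem_univ _, ?_⟩
      have h1 : T.equivFin.symm (T.equivFin ⟨(j, b), hmem⟩) = ⟨(j, b), hmem⟩ :=
        Equiv.symm_apply_apply _ _
      simp only [h1]
      exact hb
    · have h1 : (univ.filter (fun i => IsEdge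
          (Pull k (g (T.equivFin.symm i).1.1) (T.equivFin.symm i).1.2) e)).card ≤
          (univ : Finset (Fin c)).card := by
        apply Finset.card_le_card_of_injOn (fun i => (T.equivFin.symm i).1.1)
        · intro i _; exact mem_coe.2 (mem_univ _)
        · intro i hi i' hi' h
          simp only [coe_filter, mem_univ, true_and, Set.mem_ofPred_eq] at hi hi' h
          rw [← h] at hi'
          have h2 := pull_unique hs _ _ _ e hi hi'
          apply T.equivFin.symm.injective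
          apply Subtype.ext
          exact Prod.ext h h2
      simpa using h1

/-- Number of maps that are not injective on `e`. -/
lemma bad_card {N t k : ℕ} (e : Finset (Fin N)) (he : e.card = k) :
    t * (univ.filter (fun h : Fin N → Fin t => ¬ Set.InjOn h e)).card ≤ k * k * t ^ N := by
  have hpair : ∀ q ∈ e.offDiag,
      t * (univ.filter (fun h : Fin N → Fin t => h q.1 = h q.2)).card ≤ t ^ N := by
    intro q hq
    have hne : q.1 ≠ q.2 := (Finset.mem_offDiag.1 hq).2.2
    have h1 : Fintype.card (Fin t × {h : Fin N → Fin t // h q.1 = h q.2}) ≤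
        Fintype.card (Fin N → Fin t) := by
      apply Fintype.card_le_of_injective
        (fun z : Fin t × {h : Fin N → Fin t // h q.1 = h q.2} => Function.update z.2.1 q.1 z.1)
      rintro ⟨c, h, hh⟩ ⟨c', h', hh'⟩ heq
      simp only at heq
      have e1 : c = c' := by
        have := congrFun heq q.1
        simpa using this
      have e2 : ∀ w, w ≠ q.1 → h w = h' w := by
        intro w hw
        have := congrFun heq w
        rwa [Function.update_of_ne hw, Function.update_of_ne hw] at this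
      have e3 : h = h' := by
        funext w
        by_cases hw : w = q.1
        · rw [hw, hh, hh']; exact e2 _ hne.symm
        · exact e2 w hw
      subst e1
      subst e3
      rfl
    rw [Fintype.card_prod, Fintype.card_fin, Fintype.card_subtype] at h1
    simpa using h1
  have hsub : univ.filter (fun h : Fin N → Fin t => ¬ Set.InjOn h e) ⊆
      e.offDiag.biUnion (fun q => univ.filter (fun h : Fin N → Fin t => h q.1 = h q.2)) := by
    intro h hh
    rw [mem_filter] at hh
    have h1 := hh.2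
    unfold Set.InjOn at h1
    push Not at h1
    obtain ⟨u, hu, v, hv, huv, hne⟩ := h1
    rw [mem_biUnion]
    exact ⟨(u, v), Finset.mem_offDiag.2 ⟨hu, hv, hne⟩, by simpa using huv⟩
  calc t * (univ.filter (fun h : Fin N → Fin t => ¬ Set.InjOn h e)).card
      ≤ t * ∑ q ∈ e.offDiag, (univ.filter (fun h : Fin N → Fin t => h q.1 = h q.2)).card :=
        Nat.mul_le_mul_left t ((Finset.card_le_card hsub).trans Finset.card_biUnion_le)
    _ = ∑ q ∈ e.offDiag, t * (univ.filter (fun h : Fin N → Fin t => h q.1 = h q.2)).card := by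
        rw [Finset.mul_sum]
    _ ≤ ∑ q ∈ e.offDiag, t ^ N := Finset.sum_le_sum hpair
    _ = e.offDiag.card * t ^ N := by rw [Finset.sum_const, smul_eq_mul]
    _ ≤ k * k * t ^ N := by
        apply Nat.mul_le_mul_right
        rw [Finset.offDiag_card, he]
        exact Nat.sub_le _ _

/-- Deletion method. -/
lemma code {n k t l : ℕ} (hk : 1 ≤ k) (ht : 1 ≤ t)
    (hcount : (2 * n) ^ k * (k * k) ^ l ≤ n * t ^ l) :
    ∃ g : Fin l → Fin n → Fin t, ∀ e : Finset (Fin n), e.card = k → ∃ j, Set.InjOn (g j) e := by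
  obtain ⟨N, hN⟩ : ∃ N, N = 2 * n := ⟨_, rfl⟩
  have hper : ∀ e ∈ (univ : Finset (Fin N)).powersetCard k,
      t ^ l * (univ.filter (fun g : Fin l → Fin N → Fin t => ∀ j, ¬ Set.InjOn (g j) e)).card ≤
        (k * k) ^ l * (t ^ N) ^ l := by
    intro e he
    have hc := (Finset.mem_powersetCard.1 he).2
    have h1 : univ.filter (fun g : Fin l → Fin N → Fin t => ∀ j, ¬ Set.InjOn (g j) e) =
        Fintype.piFinset (fun _ : Fin l =>
          univ.filter (fun h : Fin N → Fin t => ¬ Set.InjOn h e)) := by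
      ext g
      simp [Fintype.mem_piFinset]
    rw [h1, Fintype.card_piFinset, Finset.prod_const, Finset.card_univ, Fintype.card_fin,
      ← mul_pow, ← mul_pow]
    exact Nat.pow_le_pow_left (bad_card e hc) l
  have hdc : ∑ g : Fin l → Fin N → Fin t,
      (((univ : Finset (Fin N)).powersetCard k).filter
        (fun e : Finset (Fin N) => ∀ j, ¬ Set.InjOn (g j) e)).card =
      ∑ e ∈ (univ : Finset (Fin N)).powersetCard k,
        (univ.filter (fun g : Fin l → Fin N → Fin t => ∀ j, ¬ Set.InjOn (g j) e)).card := by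
    simp_rw [Finset.card_filter]
    rw [Finset.sum_comm]
  have htl : 0 < t ^ l := Nat.pow_pos ht
  have hΩ : Fintype.card (Fin l → Fin N → Fin t) = (t ^ N) ^ l := by simp
  have hsum : ∑ g : Fin l → Fin N → Fin t,
      (((univ : Finset (Fin N)).powersetCard k).filter
        (fun e : Finset (Fin N) => ∀ j, ¬ Set.InjOn (g j) e)).card ≤
      ∑ g : Fin l → Fin N → Fin t, n := by
    rw [Finset.sum_const, Finset.card_univ, hΩ, smul_eq_mul, hdc]
    apply Nat.le_of_mul_le_mul_left _ htl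
    calc t ^ l * ∑ e ∈ (univ : Finset (Fin N)).powersetCard k,
        (univ.filter (fun g : Fin l → Fin N → Fin t => ∀ j, ¬ Set.InjOn (g j) e)).card
        = ∑ e ∈ (univ : Finset (Fin N)).powersetCard k, t ^ l *
        (univ.filter (fun g : Fin l → Fin N → Fin t => ∀ j, ¬ Set.InjOn (g j) e)).card := by
          rw [Finset.mul_sum]
      _ ≤ ∑ e ∈ (univ : Finset (Fin N)).powersetCard k, (k * k) ^ l * (t ^ N) ^ l :=
          Finset.sum_le_sum hper
      _ = N.choose k * ((k * k) ^ l * (t ^ N) ^ l) := by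
          rw [Finset.sum_const, Finset.card_powersetCard, Finset.card_univ, Fintype.card_fin,
            smul_eq_mul]
      _ ≤ (2 * n) ^ k * ((k * k) ^ l * (t ^ N) ^ l) := by
          apply Nat.mul_le_mul_right
          rw [hN]
          exact Nat.choose_le_pow _ _
      _ = ((2 * n) ^ k * (k * k) ^ l) * (t ^ N) ^ l := by ring
      _ ≤ (n * t ^ l) * (t ^ N) ^ l := Nat.mul_le_mul_right _ hcount
      _ = t ^ l * ((t ^ N) ^ l * n) := by ring
  have hne : (univ : Finset (Fin l → Fin N → Fin t)).Nonempty :=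
    ⟨fun _ _ => ⟨0, ht⟩, mem_univ _⟩
  obtain ⟨g, _, hg⟩ := Finset.exists_le_of_sum_le hne hsum
  -- deletion
  have hch : ∀ e : Finset (Fin N), ∃ D : Finset (Fin N), D.card ≤ 1 ∧
      (e.card = k → ∃ v ∈ D, v ∈ e) := by
    intro e
    by_cases he : e.Nonempty
    · obtain ⟨v, hv⟩ := he
      exact ⟨{v}, by simp, fun _ => ⟨v, by simp, hv⟩⟩
    · refine ⟨∅, by simp, fun h => ?_⟩
      rw [Finset.not_nonempty_iff_eq_empty] at he
      rw [he, Finset.card_empty] at h
      omega
  choose D hD1 hD2 using hch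
  obtain ⟨B, hB⟩ : ∃ B, B = ((univ : Finset (Fin N)).powersetCard k).filter
    (fun e : Finset (Fin N) => ∀ j, ¬ Set.InjOn (g j) e) := ⟨_, rfl⟩
  rw [← hB] at hg
  have hBmem : ∀ e' : Finset (Fin N), e' ∈ B ↔ e'.card = k ∧ ∀ j, ¬ Set.InjOn (g j) e' := by
    intro e'
    rw [hB, mem_filter, Finset.mem_powersetCard]
    simp
  have hDc : (B.biUnion D).card ≤ n := by
    refine Finset.card_biUnion_le.trans ?_
    refine (Finset.sum_le_sum (fun e _ => hD1 e)).trans ?_
    simpa using hg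
  have hS : n ≤ (univ \ B.biUnion D).card := by
    rw [Finset.card_sdiff_of_subset (Finset.subset_univ _), Finset.card_univ, Fintype.card_fin]
    omega
  have hSn : Fintype.card (Fin n) ≤ Fintype.card (univ \ B.biUnion D : Finset (Fin N)) := by
    rw [Fintype.card_fin, Fintype.card_coe]
    exact hS
  obtain ⟨f⟩ := Function.Embedding.nonempty_of_card_le hSn
  refine ⟨fun j v => g j (f v).1, ?_⟩
  intro e he
  have hfinj : Function.Injective (fun v => (f v).1) := fun u v h => f.injective (Subtype.ext h)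
  have hec : (e.image (fun v => (f v).1)).card = k := by
    rw [Finset.card_image_of_injective _ hfinj, he]
  by_contra hno
  push Not at hno
  have hmem : e.image (fun v => (f v).1) ∈ B := by
    refine (hBmem _).2 ⟨hec, fun j hj => hno j ?_⟩
    intro u hu v hv huv
    have h1 := hj (mem_coe.2 (Finset.mem_image_of_mem (fun v => (f v).1) (mem_coe.1 hu)))
      (mem_coe.2 (Finset.mem_image_of_mem (fun v => (f v).1) (mem_coe.1 hv))) huv
    exact hfinj h1
  obtain ⟨v, hv1, hv2⟩ := hD2 _ hec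
  obtain ⟨u, _, rfl⟩ := Finset.mem_image.1 hv2
  have h2 := (f u).2
  rw [Finset.mem_sdiff] at h2
  exact h2.2 (Finset.mem_biUnion.2 ⟨_, hmem, hv1⟩)

lemma mono_order {n k l l' m : ℕ} {X : Fin m → Fin k → Finset (Fin n)} (h : l ≤ l')
    (hX : IsCovering n k l m X) : IsCovering n k l' m X :=
  ⟨hX.1, hX.2.1, fun e he => ⟨(hX.2.2 e he).1, (hX.2.2 e he).2.trans h⟩⟩

/-- The upper bound `m_{k,l}(n) ≤ C n ^ ((k - 1) ⌊k/2⌋ / l)`. -/
theorem result : ∀ k l : ℕ, 2 ≤ k → 1 ≤ l → ∃ C : ℝ, 0 < C ∧ ∀ n : ℕ, k ≤ n →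
    ∃ (m : ℕ) (X : Fin m → Fin k → Finset (Fin n)), IsCovering n k l m X ∧
      (m : ℝ) ≤ C * (n : ℝ) ^ ((((k - 1) * (k / 2) : ℕ) : ℝ) / (l : ℝ)) := by
  intro k l hk hl
  obtain ⟨s, hs⟩ : ∃ s, s = k / 2 := ⟨_, rfl⟩
  obtain ⟨K, hK⟩ : ∃ K : ℝ, K = 2 ^ k * ((k : ℝ) * k) := ⟨_, rfl⟩
  have hl0 : (0 : ℝ) < l := by exact_mod_cast hl
  have hk0 : (0 : ℝ) < k := by exact_mod_cast (by omega : 0 < k)
  have hK0 : 0 < K := by rw [hK]; positivity
  rw [← hs]
  refine ⟨l * (K + 1) ^ s, by positivity, ?_⟩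
  intro n hkn
  have hn1 : (1 : ℝ) ≤ n := by exact_mod_cast (by omega : 1 ≤ n)
  obtain ⟨r, hr⟩ : ∃ r : ℝ, r = (n : ℝ) ^ (((k - 1 : ℕ) : ℝ) / l) := ⟨_, rfl⟩
  have hr1 : 1 ≤ r := by rw [hr]; exact Real.one_le_rpow hn1 (by positivity)
  have hrl : r ^ l = (n : ℝ) ^ (k - 1) := by
    rw [hr, ← Real.rpow_natCast, ← Real.rpow_mul (Nat.cast_nonneg n), div_mul_cancel₀ _ hl0.ne',
      Real.rpow_natCast]
  obtain ⟨t, ht⟩ : ∃ t, t = ⌈K * r⌉₊ := ⟨_, rfl⟩
  have ht1 : K * r ≤ t := by rw [ht]; exact Nat.le_ceil _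
  have ht2 : (t : ℝ) ≤ (K + 1) * r := by
    have h1 : (t : ℝ) < K * r + 1 := by rw [ht]; exact Nat.ceil_lt_add_one (by positivity)
    nlinarith
  have ht0 : 1 ≤ t := by
    have h1 : (0 : ℝ) < t := lt_of_lt_of_le (by positivity) ht1
    exact_mod_cast h1
  have hcount : (2 * n) ^ k * (k * k) ^ l ≤ n * t ^ l := by
    have h1 : ((2 : ℝ) * n) ^ k * ((k : ℝ) * k) ^ l ≤ n * (t : ℝ) ^ l := by
      have h2 : (K * r) ^ l ≤ (t : ℝ) ^ l := pow_le_pow_left₀ (by positivity) ht1 l
      have h3 : (2 : ℝ) ^ k ≤ (2 ^ k) ^ l :=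
        le_self_pow₀ (one_le_pow₀ (by norm_num)) (by omega)
      have h4 : (n : ℝ) ^ k = n * (n : ℝ) ^ (k - 1) := by
        rw [← pow_succ']; congr 1; omega
      calc ((2 : ℝ) * n) ^ k * ((k : ℝ) * k) ^ l
          = 2 ^ k * (n * (n : ℝ) ^ (k - 1) * ((k : ℝ) * k) ^ l) := by
            rw [mul_pow, h4]; ring
        _ ≤ (2 ^ k) ^ l * (n * (n : ℝ) ^ (k - 1) * ((k : ℝ) * k) ^ l) :=
            mul_le_mul_of_nonneg_right h3 (by positivity)
        _ = n * (K * r) ^ l := by
            rw [mul_pow K r, hrl, hK, mul_pow ((2 : ℝ) ^ k) ((k : ℝ) * k)]; ring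
        _ ≤ n * (t : ℝ) ^ l := mul_le_mul_of_nonneg_left h2 (by positivity)
    exact_mod_cast h1
  obtain ⟨g, hg⟩ := code (by omega : 1 ≤ k) ht0 hcount
  obtain ⟨m, X, hX, hm⟩ := assemble hs g hg
  refine ⟨m, X, hX, ?_⟩
  have h1 : (m : ℝ) ≤ l * (t : ℝ) ^ s := by exact_mod_cast hm
  have h3 : (t : ℝ) ^ s ≤ (K + 1) ^ s * r ^ s := by
    rw [← mul_pow]
    exact pow_le_pow_left₀ (Nat.cast_nonneg t) ht2 s
  have h4 : r ^ s = (n : ℝ) ^ ((((k - 1) * s : ℕ) : ℝ) / (l : ℝ)) := by
    rw [hr, ← Real.rpow_natCast, ← Real.rpow_mul (Nat.cast_nonneg n)]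
    congr 1
    push_cast
    ring
  rw [← h4]
  calc (m : ℝ) ≤ l * (t : ℝ) ^ s := h1
    _ ≤ l * ((K + 1) ^ s * r ^ s) := mul_le_mul_of_nonneg_left h3 (Nat.cast_nonneg l)
    _ = l * (K + 1) ^ s * r ^ s := by ring

end Pool.Agent.Results.MP_f91e62_co.UpperBound
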